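import Pool.Agent.L0h58.HX.Num
import Pool.Agent.L0h58.HR.Pop
import Pool.Agent.L0h90.LT.One

/-!
# The hard functions given by Hankel matrices
-/

set_option autoImplicit false

namespace Pool.Agent.L0h58.HX

open Finset Polynomial Pool.Agent.L0h32.LT Pool.Agent.L0h32.LT2 Pool.Agent.L0h58.HN
  Pool.Agent.L0h58.HM Pool.Agent.L0h58.HR

/-- The position of a coefficient in the windows. -/
def pos (K : ℕ) (p : Fin 6 × Fin K) : ℕ := (p.1 : ℕ) * K + (K - 1 - p.2)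

theorem pos_lt {K : ℕ} (p : Fin 6 × Fin K) : pos K p < 6 * K := by
  obtain ⟨c, a⟩ := p
  have h1 : (c : ℕ) * K ≤ 5 * K := Nat.mul_le_mul_right _ (by omega)
  have h2 := a.isLt
  unfold pos
  dsimp only
  omega

theorem pos_inj (K : ℕ) : Function.Injective (pos K) := by
  rintro ⟨c, a⟩ ⟨c', a'⟩ h
  unfold pos at h
  dsimp only at h
  have h1 := a.isLt
  have h2 := a'.isLt
  have e1 : ((c : ℕ) * K + (K - 1 - a)) / K = c := by
    rw [Nat.mul_comm, Nat.mul_add_div (by omega), Nat.div_eq_of_lt (by omega), Nat.add_zero]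
  have e2 : ((c' : ℕ) * K + (K - 1 - a')) / K = c' := by
    rw [Nat.mul_comm, Nat.mul_add_div (by omega), Nat.div_eq_of_lt (by omega), Nat.add_zero]
  have e3 : (c : ℕ) = c' := by
    rw [← e1, h, e2]
  have e4 : (a : ℕ) = a' := by
    rw [e3] at h
    omega
  exact Prod.ext (Fin.ext e3) (Fin.ext e4)

/-- **Assembly.** -/
theorem asm3 (hcon : S_CON) (hselx : S_SELX) (hrec : S_REC) (hcnt : S_CNT) (htoe : S_TOE)
    (k : ℕ) : ∃ W : ℕ, 1 ≤ W ∧ W ≤ 2 ^ (131072 * (k + 2) ^ 3) ∧ ∀ n ≥ W,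
      ∃ (K : ℕ) (r : ℕ → ZMod 2) (w : (ZMod 2)[X]), 1 ≤ K ∧ 4 * K ≤ n ∧ w.natDegree ≤ 2 * K ∧
        HardC n (k * n) (2 ^ (1 / (W : ℝ) * n)) (2 ^ (-(1 / (W : ℝ) * n)))
          (fun x => decide (quad (hank r (pos K)) x ≠ w)) := by
  classical
  obtain ⟨k', hk'⟩ : ∃ k', k' = k + 2 := ⟨_, rfl⟩
  obtain ⟨y, hy, hd2⟩ := par5 (J := 2 * k') (by omega)
  obtain ⟨d, hd⟩ : ∃ d, d = dx (2 * k') y := ⟨_, rfl⟩
  rw [← hd] at hy hd2
  obtain ⟨D, hD⟩ : ∃ D, D = 2 ^ d := ⟨_, rfl⟩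
  obtain ⟨E, hE⟩ : ∃ E, E = 2 ^ y := ⟨_, rfl⟩
  rw [← hE] at hy
  have hD1 : 1 ≤ D := by
    rw [hD]
    exact Nat.one_le_two_pow
  have hE1 : 1 ≤ E := by
    rw [hE]
    exact Nat.one_le_two_pow
  obtain ⟨C1, hC1⟩ : ∃ C1, C1 = 32 * k' * E ^ 2 * D ^ 2 := ⟨_, rfl⟩
  obtain ⟨R, hR⟩ : ∃ R, R = (k + 1) * (2 * C1) := ⟨_, rfl⟩
  obtain ⟨L, hL⟩ : ∃ L, L = 32 * k' ^ 2 * (d + 1) := ⟨_, rfl⟩
  obtain ⟨t, ht⟩ : ∃ t, t = 4 * d + 32 := ⟨_, rfl⟩
  obtain ⟨T, hT⟩ : ∃ T, T = 64 * t := ⟨_, rfl⟩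
  obtain ⟨W, hW⟩ : ∃ W, W = 16384 * D * t * ((R + 3) * (L + 1) * (8 * (t + 1))) := ⟨_, rfl⟩
  have hC11 : 1 ≤ C1 := by
    rw [hC1]
    have : 0 < k' := by omega
    have : 0 < 32 * k' * E ^ 2 * D ^ 2 := by positivity
    exact this
  have ht1 : 0 < t := by omega
  have hDt : 0 < 2048 * D * t := by positivity
  have h2D : 0 < 2 * D := by positivity
  have hED : 0 < E * D := by positivity
  obtain ⟨hW2, hWC, hWL, hWR, hWK⟩ := size_X hk' hd hd2 hD hE hC1 hR hL ht hW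
  refine ⟨W, hC11.trans hWC, hW2, fun n hn => ?_⟩
  clear hW2
  have hnC : C1 ≤ n := hWC.trans hn
  have hnL : 16384 * D * t * (L + 1) ≤ n := hWL.trans hn
  have hnK : 2048 * D * t * (64 * (t + 1)) ≤ n := hWK.trans hn
  have hn0 : 0 < n := by omega
  -- the parameters
  obtain ⟨ℓ, hℓ⟩ : ∃ ℓ, ℓ = n / C1 := ⟨_, rfl⟩
  have hℓ1 : 1 ≤ ℓ := by
    rw [hℓ, Nat.le_div_iff_mul_le (by omega)]
    omega
  have hℓ2 : C1 * ℓ ≤ n := by
    rw [hℓ]
    exact Nat.mul_div_le _ _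
  have hℓ3 : n < C1 * (ℓ + 1) := by
    rw [hℓ]
    exact Nat.lt_mul_div_succ _ (by omega)
  obtain ⟨r, hr⟩ : ∃ r, r = (k + 1) * n / ℓ + 1 := ⟨_, rfl⟩
  have hr1 : (k + 1) * n ≤ r * ℓ := by
    have := Nat.lt_mul_div_succ ((k + 1) * n) (show 0 < ℓ by omega)
    rw [hr, Nat.mul_comm _ ℓ]
    exact this.le
  have hr2 : r * ℓ ≤ k' * n := by
    have h1 := Nat.div_mul_le_self ((k + 1) * n) ℓ
    have h2 : ℓ ≤ n := by
      rw [hℓ]
      exact Nat.div_le_self _ _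
    rw [hr, hk', Nat.succ_mul]
    have h3 : (k + 2) * n = (k + 1) * n + n := by ring
    omega
  have hr3 : r ≤ R + 1 := by
    rw [hr, hR]
    apply Nat.succ_le_succ
    have h1 : (k + 1) * n ≤ (k + 1) * (2 * C1) * ℓ := by
      rw [mul_assoc]
      apply Nat.mul_le_mul_left
      calc n ≤ C1 * (ℓ + 1) := hℓ3.le
        _ ≤ C1 * (2 * ℓ) := Nat.mul_le_mul_left _ (by omega)
        _ = 2 * C1 * ℓ := by ring
    exact (Nat.div_le_div_right h1).trans (by rw [Nat.mul_div_cancel _ (by omega)])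
  obtain ⟨m, hm⟩ : ∃ m, m = n / (2 * D) := ⟨_, rfl⟩
  have hm1 : 2 * D * m ≤ n := by
    rw [hm]
    exact Nat.mul_div_le _ _
  have hm2 : n < 2 * D * (m + 1) := by
    rw [hm]
    exact Nat.lt_mul_div_succ _ h2D
  obtain ⟨K, hK⟩ : ∃ K, K = n / (2048 * D * t) := ⟨_, rfl⟩
  have hK1 : 2048 * D * t * K ≤ n := by
    rw [hK]
    exact Nat.mul_div_le _ _
  have hK2 : n < 2048 * D * t * (K + 1) := by
    rw [hK]
    exact Nat.lt_mul_div_succ _ hDt
  have hK3 : 64 * (t + 1) ≤ K := by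
    rw [hK, Nat.le_div_iff_mul_le hDt, Nat.mul_comm]
    exact hnK
  have hKm : 16 * T * K ≤ m := by
    rw [hm, Nat.le_div_iff_mul_le h2D]
    calc 16 * T * K * (2 * D) = 2048 * D * t * K := by
          rw [hT]
          ring
      _ ≤ n := hK1
  have hK4 : 4 * K ≤ n := by
    refine le_trans ?_ hK1
    apply Nat.mul_le_mul_right
    calc 4 = 4 * 1 * 1 := rfl
      _ ≤ 2048 * D * t := Nat.mul_le_mul (Nat.mul_le_mul (by norm_num) hD1) ht1
  obtain ⟨e, he⟩ : ∃ e, e = 16 * n / (E * D) := ⟨_, rfl⟩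
  have he1 : 16 * n < E * D * (e + 1) := by
    rw [he]
    exact Nat.lt_mul_div_succ _ hED
  have he2 : E * D * e ≤ 16 * n := by
    rw [he]
    exact Nat.mul_div_le _ _
  obtain ⟨b, hb⟩ : ∃ b, b = 2 * d + 32 := ⟨_, rfl⟩
  have hb1 : 65536 * D * t ≤ 2 ^ b := by
    have h1 : d + 1 ≤ 2 ^ d := Nat.lt_two_pow_self
    have h2 : (2 : ℕ) ^ b = 65536 * D * (65536 * D) := by
      rw [hb, hD]
      have : (2 : ℕ) ^ (2 * d + 32) = 2 ^ 16 * 2 ^ d * (2 ^ 16 * 2 ^ d) := by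
        rw [← pow_add, ← pow_add]
        congr 1
        ring
      rw [this]
      norm_num
    rw [h2]
    apply Nat.mul_le_mul_left
    rw [← hD] at h1
    omega
  have hb2 : 262144 * b * t ≤ E := by
    refine le_trans (le_of_eq ?_) hy
    rw [hb, ht]
    ring
  -- the matrix
  obtain ⟨g1, g2, g3⟩ := toe_cond (m' := m / T) ht hT (by rw [← hD]; exact hm2) hKm hK3 rfl
  obtain ⟨q, hq⟩ := htoe n m (m / T) (6 * K) (K / 8) t T (Fin 6 × Fin K) inferInstance (pos K)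
    (pos_inj K) pos_lt (by omega) (by omega) g1 g2 g3
  rw [Fintype.card_prod, Fintype.card_fin, Fintype.card_fin] at hq
  obtain ⟨M, hMq⟩ : ∃ M : Fin n → (Fin 6 × Fin K → ZMod 2), M = hank q (pos K) := ⟨_, rfl⟩
  rw [← hMq] at hq
  obtain ⟨s, hs⟩ : ∃ s, s = K / 8 := ⟨_, rfl⟩
  have hs8 : 8 * s ≤ K := by omega
  rw [← hs] at hq
  obtain ⟨w, hw⟩ := exists_popular M
  have hwx : ∃ x, quad M x = w := by
    by_contra hcon
    push Not at hcon
    have : (univ.filter fun x : Inp n => quad M x = w) = ∅ :=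
      filter_eq_empty_iff.2 fun x _ => hcon x
    rw [this, card_empty, mul_zero] at hw
    have : 0 < 2 ^ n := by positivity
    omega
  refine ⟨K, q, w, by omega, hK4, ?_, ?_⟩
  · obtain ⟨x, hx⟩ := hwx
    rw [← hx]
    exact Pool.Agent.L0h90.LT.deg_quad M x
  · rw [← hMq]
    intro V Ω hV hΩ hne start var next out htrue hfalse
    by_contra hcon'
    push Not at hcon'
    -- a good random string
    obtain ⟨W₀, hW₀⟩ : ∃ W₀, W₀ = univ.filter fun x : Inp n => quad M x = w := ⟨_, rfl⟩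
    obtain ⟨ε, hε⟩ : ∃ ε : ℝ, ε = 2 ^ (-(1 / (W : ℝ) * n)) := ⟨_, rfl⟩
    have hε0 : 0 < ε := by
      rw [hε]
      positivity
    rw [← hε] at hfalse
    obtain ⟨ω, hω⟩ : ∃ ω : Ω, ε * W₀.card ≤ (W₀.filter fun x =>
        out ω ((stp (var ω) (next ω) (out ω) x)^[k * n] (start ω)) = some false).card := by
      by_contra hno
      push Not at hno
      have h1 : ∑ ω : Ω, ((W₀.filter fun x =>
          out ω ((stp (var ω) (next ω) (out ω) x)^[k * n] (start ω)) = some false).card : ℝ) <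
            ∑ _ω : Ω, ε * W₀.card := sum_lt_sum_of_nonempty univ_nonempty fun ω _ => hno ω
      have h2 : ∑ ω : Ω, ((W₀.filter fun x =>
          out ω ((stp (var ω) (next ω) (out ω) x)^[k * n] (start ω)) = some false).card : ℝ) =
            ∑ x ∈ W₀, ((univ.filter fun ω =>
          out ω ((stp (var ω) (next ω) (out ω) x)^[k * n] (start ω)) = some false).card : ℝ) := by
        simp only [card_filter]
        push_cast
        exact sum_comm
      have h3 : ∑ _x ∈ W₀, ε * Fintype.card Ω ≤ ∑ x ∈ W₀, ((univ.filter fun ω =>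
          out ω ((stp (var ω) (next ω) (out ω) x)^[k * n] (start ω)) = some false).card : ℝ) := by
        apply sum_le_sum
        intro x hx
        rw [hW₀] at hx
        exact hfalse x (decide_eq_false (by
          rw [not_not]
          exact (mem_filter.1 hx).2))
      rw [sum_const, nsmul_eq_mul] at h1 h3
      rw [card_univ] at h1
      rw [h2] at h1
      have h4 : (W₀.card : ℝ) * (ε * Fintype.card Ω) = (Fintype.card Ω : ℝ) * (ε * W₀.card) := by
        ring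
      linarith
    obtain ⟨S₀, hS₀⟩ : ∃ S₀, S₀ = W₀.filter fun x =>
        out ω ((stp (var ω) (next ω) (out ω) x)^[k * n] (start ω)) = some false := ⟨_, rfl⟩
    rw [← hS₀] at hω
    have hw' : (2 : ℝ) ^ n ≤ 2 ^ (2 * K) * W₀.card := by
      rw [hW₀]
      exact_mod_cast hw
    have hS₀c : ε * 2 ^ n ≤ 2 ^ (2 * K) * S₀.card := by
      calc ε * 2 ^ n ≤ ε * (2 ^ (2 * K) * W₀.card) := mul_le_mul_of_nonneg_left hw' hε0.le
        _ = 2 ^ (2 * K) * (ε * W₀.card) := by ring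
        _ ≤ _ := mul_le_mul_of_nonneg_left hω (by positivity)
    have hS₀ne : S₀.Nonempty := by
      rw [← card_pos]
      by_contra h0
      have h0' : S₀.card = 0 := by omega
      rw [h0', Nat.cast_zero, mul_zero] at hS₀c
      have : 0 < ε * 2 ^ n := by positivity
      linarith
    have hbd : ∀ y : Inp n, bd (pad hn0 (var ω) (next ω) (out ω) (k * n)) ℓ (start ω) y r =
        (stp (var ω) (next ω) (out ω) y)^[k * n] (start ω) := by
      intro y
      unfold bd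
      obtain ⟨c, hc⟩ := Nat.exists_eq_add_of_le
        (show k * n ≤ r * ℓ by rw [Nat.succ_mul] at hr1; omega)
      rw [hc]
      exact run_pad_late hn0 (var ω) (next ω) (out ω) (k * n) y (start ω) c
    have hcore := core2 hcon hselx hrec (k := k') (y := y) (by omega) hn0 hℓ1
      (by rw [← hd]; exact hD) hE (by rw [← hC1]; exact hℓ2) hr2 hm1 he1 M hq w S₀ hS₀ne
      (pad hn0 (var ω) (next ω) (out ω) (k * n)) (start ω) (by
      intro x β i
      exact cov_pad hn0 (var ω) (next ω) (out ω) (k * n) hℓ1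
        (by rw [← Nat.succ_mul]; exact hr1) β x i) (by
      intro x hx z hz
      rw [hS₀] at hx
      have hx2 := (mem_filter.1 hx).2
      rw [hbd, hbd] at hz
      rw [← hz] at hx2
      by_contra hne
      exact htrue z (decide_eq_true hne) ω hx2)
    rw [← hd, ← hL] at hcore
    have h1 : (2 : ℝ) ^ K ≤ (L : ℝ) * (Nat.card V) ^ (r + 1) * (Idx n e).card *
        2 ^ s * 2 ^ (1 / (W : ℝ) * n) := by
      have h2 : (S₀.card : ℝ) * 2 ^ (3 * K) ≤ (L : ℝ) * (Nat.card V) ^ (r + 1) *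
          (Idx n e).card * 2 ^ (n + s) := by exact_mod_cast hcore
      obtain ⟨B, hB⟩ : ∃ B : ℝ, B = (L : ℝ) * (Nat.card V) ^ (r + 1) *
          (Idx n e).card := ⟨_, rfl⟩
      rw [← hB] at h2 ⊢
      have h3 : ε * 2 ^ n * 2 ^ K * 2 ^ (2 * K) ≤ B * 2 ^ s * 2 ^ n * 2 ^ (2 * K) := by
        calc ε * 2 ^ n * 2 ^ K * 2 ^ (2 * K) = (ε * 2 ^ n) * 2 ^ (3 * K) := by
              rw [show 3 * K = K + 2 * K by ring, pow_add]
              ring
          _ ≤ (2 ^ (2 * K) * S₀.card) * 2 ^ (3 * K) :=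
            mul_le_mul_of_nonneg_right hS₀c (by positivity)
          _ = 2 ^ (2 * K) * (S₀.card * 2 ^ (3 * K)) := by ring
          _ ≤ 2 ^ (2 * K) * (B * 2 ^ (n + s)) := mul_le_mul_of_nonneg_left h2 (by positivity)
          _ = _ := by
            rw [pow_add]
            ring
      have h4 : ε * 2 ^ K ≤ B * 2 ^ s := by
        have h5 : (0 : ℝ) < 2 ^ n * 2 ^ (2 * K) := by positivity
        have h6 : (ε * 2 ^ K) * (2 ^ n * 2 ^ (2 * K)) ≤ (B * 2 ^ s) * (2 ^ n * 2 ^ (2 * K)) := by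
          linarith
        exact le_of_mul_le_mul_right h6 h5
      have h5 : (2 : ℝ) ^ (1 / (W : ℝ) * n) * ε = 1 := by
        rw [hε, ← Real.rpow_add (by norm_num), add_neg_cancel, Real.rpow_zero]
      calc (2 : ℝ) ^ K = (2 : ℝ) ^ (1 / (W : ℝ) * n) * (ε * 2 ^ K) := by
            rw [← mul_assoc, h5, one_mul]
        _ ≤ (2 : ℝ) ^ (1 / (W : ℝ) * n) * (B * 2 ^ s) :=
          mul_le_mul_of_nonneg_left h4 (by positivity)
        _ = _ := by ring
    have hnum := num' (b := b) (e := e) h1 (by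
      have := hcnt n e b
      unfold Idx
      refine le_trans (le_of_eq ?_) this
      congr 2) hcon'
    exact final_num3 hD1 ht1 hn0 hnL hK2 hs8 hr3 hWR hb1 hb2 he2 hnum

end Pool.Agent.L0h58.HX
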