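import Pool.Agent.L0h58.HX.Asm

/-!
# The explicit function contains the hard functions
-/

set_option autoImplicit false

namespace Pool.Agent.L0h58.HX

open Finset Polynomial Pool.Agent.L0h32.LT Pool.Agent.L0h32.LT2 Pool.Agent.L0h58.HN
  Pool.Agent.L0h58.HM Pool.Agent.L0h58.HR

/-- The input `x` with constants. -/
def ext {N nn : ℕ} (src : ℕ → Option (Fin nn)) (cst : ℕ → Bool) (x : Inp nn) : Inp N := fun p =>
  match src p with
  | some j => x j
  | none => cst p

/-- Restrictions preserve hardness. -/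
theorem restr_hardD {N nn T : ℕ} {L ε : ℝ} (hn : 0 < nn) (src : ℕ → Option (Fin nn))
    (cst : ℕ → Bool) (f : Inp N → Bool) (g : Inp nn → Bool) (hfg : ∀ x, f (ext src cst x) = g x)
    (hg : HardD nn T L ε g) : HardD N T L ε f := by
  classical
  intro V Ω hV hΩ hne start var next out htrue hfalse
  obtain ⟨var', hvar'⟩ : ∃ var' : Ω → V → Fin nn, ∀ ω v, var' ω v =
      match src (var ω v) with
      | some j => j
      | none => ⟨0, hn⟩ := ⟨_, fun _ _ => rfl⟩
  obtain ⟨next', hnext'⟩ : ∃ next' : Ω → V → Bool → V, ∀ ω v b, next' ω v b =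
      match src (var ω v) with
      | some _ => next ω v b
      | none => next ω v (cst (var ω v)) := ⟨_, fun _ _ _ => rfl⟩
  have h3 : ∀ (x : Inp nn) (ω : Ω), stp (var' ω) (next' ω) (out ω) x =
      stp (var ω) (next ω) (out ω) (ext src cst x) := by
    intro x ω
    funext v
    unfold stp
    by_cases hv : (out ω v).isSome = true
    · rw [if_pos hv, if_pos hv]
    · rw [if_neg hv, if_neg hv, hvar', hnext']
      unfold ext
      cases src (var ω v) with
      | some j => rfl
      | none => rfl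
  refine hg V Ω hV hΩ hne start var' next' out (fun x hx ω t => ?_) fun x hx => ?_
  · rw [h3]
    exact htrue _ (by rw [hfg]; exact hx) ω t
  · refine (hfalse (ext src cst x) (by rw [hfg]; exact hx)).trans (le_of_eq ?_)
    have h4 : (univ.filter fun ω => out ω ((stp (var ω) (next ω) (out ω)
        (ext src cst x))^[T] (start ω)) = some false) =
        univ.filter fun ω => out ω ((stp (var' ω) (next' ω) (out ω) x)^[T] (start ω)) =
          some false := by
      apply filter_congr
      intro ω _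
      rw [h3]
    rw [h4]

theorem bv_dec (a : ZMod 2) : (bv (decide (a = 1)) : (ZMod 2)[X]) = C a := by
  have h : ∀ a : ZMod 2, a = 0 ∨ a = 1 := by decide
  rcases h a with h | h
  · rw [h, decide_eq_false (by decide), C_0]
    rfl
  · rw [h, decide_eq_true rfl, C_1]
    rfl

theorem acc_sum {R : Type} [CommRing R] (z : R) (n : ℕ) (b : ℕ → Bool) (c : ℕ) : ∀ i,
    acc z n b c i = ∑ j ∈ range i, bv (b (n + 14 * j + 12)) * win z n b c (j + 1) := by
  intro i
  induction i with
  | zero => rfl
  | succ i ih =>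
    rw [sum_range_succ, ← ih]
    rfl

/-- The windows of the special inputs. -/
theorem win_special {n K c : ℕ} (b : ℕ → Bool) (q : ℕ → ZMod 2)
    (hP : pe (X : (ZMod 2)[X]) n b = X ^ K)
    (hnew : ∀ i < n, b (n + 14 * i + c) = decide (q i = 1))
    (hold : ∀ i < n, b (n + 14 * i + 6 + c) = (decide (K ≤ i) && decide (q (i - K) = 1))) :
    ∀ i ≤ n, win (X : (ZMod 2)[X]) n b c i = ∑ a ∈ range (min K i), C (q (i - 1 - a)) * X ^ a := by
  intro i
  induction i with
  | zero =>
    intro _
    rw [Nat.min_zero, sum_range_zero]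
    rfl
  | succ i ih =>
    intro hi
    have e0 : win (X : (ZMod 2)[X]) n b c (i + 1) = X * win X n b c i +
        bv (b (n + 14 * i + c)) + bv (b (n + 14 * i + 6 + c)) * pe X n b := rfl
    rw [e0, ih (by omega), hnew i (by omega), hold i (by omega), hP, bv_dec]
    have e1 : ∀ m, X * ∑ a ∈ range m, C (q (i - 1 - a)) * (X : (ZMod 2)[X]) ^ a + C (q i) =
        ∑ a ∈ range (m + 1), C (q (i + 1 - 1 - a)) * X ^ a := by
      intro m
      rw [sum_range_succ', mul_sum]
      congr 1
      · apply sum_congr rfl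
        intro a _
        have e2 : i + 1 - 1 - (a + 1) = i - 1 - a := by omega
        rw [e2, pow_succ]
        ring
      · simp
    rw [e1]
    by_cases hK : K ≤ i
    · have e3 : min K i = K := by omega
      have e4 : min K (i + 1) = K := by omega
      rw [e3, e4, sum_range_succ, decide_eq_true hK, Bool.true_and, bv_dec]
      have e5 : i + 1 - 1 - K = i - K := by omega
      rw [e5, add_assoc, CharTwo.add_self_eq_zero, add_zero]
    · have e3 : min K i = i := by omega
      have e4 : min K (i + 1) = i + 1 := by omega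
      rw [e3, e4, decide_eq_false hK, Bool.false_and]
      have e5 : (bv false : (ZMod 2)[X]) = 0 := rfl
      rw [e5, zero_mul, add_zero]

/-- The variables. -/
def srcX (n nn K : ℕ) (p : ℕ) : Option (Fin nn) :=
  if n ≤ p ∧ (p - n) % 14 = 12 then
    (if h : K ≤ (p - n) / 14 ∧ (p - n) / 14 - K < nn then some ⟨(p - n) / 14 - K, h.2⟩ else none)
  else none

/-- The constants. -/
noncomputable def cstX (n K : ℕ) (r : ℕ → ZMod 2) (w : (ZMod 2)[X]) (p : ℕ) : Bool :=
  if p < n then decide (p = K)
  else if (p - n) % 14 < 6 then decide (r ((p - n) % 14 * K + (p - n) / 14 - 1) = 1)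
  else if (p - n) % 14 < 12 then decide (K ≤ (p - n) / 14) &&
    decide (r (((p - n) % 14 - 6) * K + ((p - n) / 14 - K) - 1) = 1)
  else if (p - n) % 14 = 13 then decide (w.coeff ((p - n) / 14) = 1)
  else false

section

variable {N n nn K : ℕ} {r : ℕ → ZMod 2} {w : (ZMod 2)[X]}

theorem bit_lt {x : Inp nn} {j : ℕ} (hj : j < N) :
    bit (ext (N := N) (srcX n nn K) (cstX n K r w) x) j =
      match srcX n nn K j with
      | some j => x j
      | none => cstX n K r w j := by
  unfold bit
  rw [dif_pos hj]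
  rfl

theorem bit_cst {x : Inp nn} {j : ℕ} (hj : j < N) (hs : srcX n nn K j = none) :
    bit (ext (N := N) (srcX n nn K) (cstX n K r w) x) j = cstX n K r w j := by
  rw [bit_lt hj, hs]

theorem hard_special (hN : n = N / 16) (hK1 : 1 ≤ K) (hKn : K + nn ≤ n) (hw : w.natDegree < n)
    (hnn : 1 ≤ nn) (x : Inp nn) :
    hard N (ext (srcX n nn K) (cstX n K r w) x) = decide (quad (hank r (pos K)) x ≠ w) := by
  classical
  obtain ⟨b, hb⟩ : ∃ b, b = bit (ext (N := N) (srcX n nn K) (cstX n K r w) x) := ⟨_, rfl⟩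
  have hn15 : 15 * n ≤ N := by omega
  have d1 : ∀ i c, c < 14 → (n + 14 * i + c - n) / 14 = i := by
    intro i c hc
    omega
  have d2 : ∀ i c, c < 14 → (n + 14 * i + c - n) % 14 = c := by
    intro i c hc
    omega
  have hb0 : ∀ i < n, b i = decide (i = K) := by
    intro i hi
    rw [hb, bit_cst (by omega)]
    · unfold cstX
      rw [if_pos hi]
    · unfold srcX
      rw [if_neg (by omega)]
  have hb1 : ∀ c < 6, ∀ i < n, b (n + 14 * i + c) = decide (r (c * K + i - 1) = 1) := by
    intro c hc i hi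
    rw [hb, bit_cst (by omega)]
    · unfold cstX
      rw [if_neg (by omega), d1 i c (by omega), d2 i c (by omega), if_pos hc]
    · unfold srcX
      rw [if_neg (by rw [d2 i c (by omega)]; omega)]
  have hb2 : ∀ c < 6, ∀ i < n, b (n + 14 * i + 6 + c) =
      (decide (K ≤ i) && decide (r (c * K + (i - K) - 1) = 1)) := by
    intro c hc i hi
    have e : n + 14 * i + 6 + c = n + 14 * i + (6 + c) := by ring
    rw [e, hb, bit_cst (by omega)]
    · unfold cstX
      have e2 : 6 + c - 6 = c := by omega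
      rw [if_neg (by omega), d1 i (6 + c) (by omega), d2 i (6 + c) (by omega), if_neg (by omega),
        if_pos (by omega), e2]
    · unfold srcX
      rw [if_neg (by rw [d2 i (6 + c) (by omega)]; omega)]
  have hb3 : ∀ i < n, b (n + 14 * i + 12) =
      if h : K ≤ i ∧ i - K < nn then x ⟨i - K, h.2⟩ else false := by
    intro i hi
    rw [hb, bit_lt (by omega)]
    have e1 := d1 i 12 (by omega)
    have e2 := d2 i 12 (by omega)
    by_cases h : K ≤ i ∧ i - K < nn
    · have e3 : srcX n nn K (n + 14 * i + 12) = some ⟨i - K, h.2⟩ := by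
        unfold srcX
        rw [if_pos ⟨by omega, e2⟩, dif_pos (by rw [e1]; exact h)]
        simp only [e1]
      rw [e3, dif_pos h]
    · have e3 : srcX n nn K (n + 14 * i + 12) = none := by
        unfold srcX
        rw [if_pos ⟨by omega, e2⟩, dif_neg (by rw [e1]; exact h)]
      rw [e3, dif_neg h]
      unfold cstX
      rw [if_neg (by omega), e2, if_neg (by omega), if_neg (by omega), if_neg (by omega)]
  have hb4 : ∀ i < n, b (n + 14 * i + 13) = decide (w.coeff i = 1) := by
    intro i hi
    rw [hb, bit_cst (by omega)]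
    · unfold cstX
      rw [if_neg (by omega), d1 i 13 (by omega), d2 i 13 (by omega), if_neg (by omega),
        if_neg (by omega), if_pos rfl]
    · unfold srcX
      rw [if_neg (by rw [d2 i 13 (by omega)]; omega)]
  have hP : pe (X : (ZMod 2)[X]) n b = X ^ K := by
    unfold pe
    rw [sum_eq_single_of_mem K (mem_range.2 (by omega)) (by
      intro i hi hne
      rw [hb0 i (mem_range.1 hi), decide_eq_false hne]
      show (0 : (ZMod 2)[X]) * _ = 0
      rw [zero_mul])]
    rw [hb0 K (by omega), decide_eq_true rfl]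
    show (1 : (ZMod 2)[X]) * _ = _
    rw [one_mul]
  have hT : tgt (X : (ZMod 2)[X]) n b = w := by
    unfold tgt
    rw [w.as_sum_range' n hw]
    apply sum_congr rfl
    intro i hi
    rw [hb4 i (mem_range.1 hi), bv_dec, C_mul_X_pow_eq_monomial]
  have hA : ∀ c : Fin 6, acc (X : (ZMod 2)[X]) n b c n = frm (hank r (pos K)) x c := by
    intro c
    obtain ⟨l, hl⟩ := Nat.exists_eq_add_of_le hKn
    have hwin := win_special (c := (c : ℕ)) b (fun i => r (c * K + i - 1)) hP
      (hb1 c c.isLt) (hb2 c c.isLt)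
    rw [acc_sum]
    have hz : ∀ j < n, ¬ (K ≤ j ∧ j - K < nn) →
        bv (b (n + 14 * j + 12)) * win (X : (ZMod 2)[X]) n b c (j + 1) = 0 := by
      intro j hj h
      rw [hb3 j hj, dif_neg h]
      show (0 : (ZMod 2)[X]) * _ = 0
      rw [zero_mul]
    have hr : range n = range (K + nn + l) := by rw [hl]
    rw [hr, sum_range_add, sum_range_add]
    rw [sum_eq_zero (s := range K) (fun j hj => hz j (by have := mem_range.1 hj; omega) (by
      have := mem_range.1 hj; omega))]
    rw [sum_eq_zero (s := range l) (fun j hj => hz (K + nn + j) (by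
      have := mem_range.1 hj; omega) (by omega))]
    rw [zero_add, add_zero, sum_range]
    unfold frm
    apply sum_congr rfl
    intro j _
    have hj := j.isLt
    rw [hb3 (K + j) (by omega), dif_pos (by omega), hwin (K + j + 1) (by omega)]
    have e1 : (⟨K + j - K, by omega⟩ : Fin nn) = j := Fin.ext (by
      show K + (j : ℕ) - K = j
      omega)
    rw [e1]
    have e2 : min K (K + (j : ℕ) + 1) = K := by omega
    rw [e2, sum_range]
    cases x j with
    | false =>
      show (0 : (ZMod 2)[X]) * _ = _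
      rw [zero_mul, if_neg (by decide)]
    | true =>
      show (1 : (ZMod 2)[X]) * _ = _
      rw [one_mul, if_pos rfl]
      apply sum_congr rfl
      intro a _
      have ha := a.isLt
      congr 2
      show r _ = r _
      congr 1
      unfold pos
      dsimp only
      omega
  have hv : vl (X : (ZMod 2)[X]) n b = quad (hank r (pos K)) x - w := by
    unfold vl quad
    rw [hT]
    have h0 := hA 0
    have h1 := hA 1
    have h2 := hA 2
    have h3 := hA 3
    have h4 := hA 4
    have h5 := hA 5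
    rw [← h0, ← h1, ← h2, ← h3, ← h4, ← h5]
    rfl
  unfold hard
  rw [← hN, ← hb, hv]
  apply decide_eq_decide.2
  exact sub_ne_zero

end

/-- **The explicit function is hard.** -/
theorem all4 (hcon : S_CON) (hselx : S_SELX) (hrec : S_REC) (hcnt : S_CNT) (htoe : S_TOE) :
    ∃ A : ℕ, ∀ k N : ℕ, 1 ≤ k → 2 ^ (A * k ^ 3) ≤ N →
      HardD N (k * N) (2 ^ ((N : ℝ) / 2 ^ (A * k ^ 3))) (2 ^ (-((N : ℝ) / 2 ^ (A * k ^ 3))))
        (hard N) := by
  classical
  choose W hWpos hW2 hW using asm3 hcon hselx hrec hcnt htoe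
  obtain ⟨A₀, hA₀⟩ : ∃ A₀ : ℕ, A₀ = 131072 * 287496 := ⟨_, rfl⟩
  refine ⟨A₀ + 6, fun k N hk hN => ?_⟩
  have hWb : 64 * W (64 * k) ≤ 2 ^ ((A₀ + 6) * k ^ 3) := by
    have h2 : (64 * k + 2) ^ 3 ≤ 287496 * k ^ 3 := by
      calc (64 * k + 2) ^ 3 ≤ (66 * k) ^ 3 := Nat.pow_le_pow_left (by omega) 3
        _ = 287496 * k ^ 3 := by ring
    have h3 : 1 ≤ k ^ 3 := Nat.one_le_pow _ _ hk
    have h4 : W (64 * k) ≤ 2 ^ (A₀ * k ^ 3) := by
      refine (hW2 (64 * k)).trans (Nat.pow_le_pow_right (by norm_num) ?_)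
      calc 131072 * (64 * k + 2) ^ 3 ≤ 131072 * (287496 * k ^ 3) := Nat.mul_le_mul_left _ h2
        _ = A₀ * k ^ 3 := by
          rw [hA₀]
          ring
    calc 64 * W (64 * k) ≤ 2 ^ 6 * 2 ^ (A₀ * k ^ 3) := Nat.mul_le_mul (by norm_num) h4
      _ = 2 ^ (6 + A₀ * k ^ 3) := (pow_add _ _ _).symm
      _ ≤ 2 ^ ((A₀ + 6) * k ^ 3) := Nat.pow_le_pow_right (by norm_num) (by
        rw [Nat.add_mul]
        omega)
  clear hW2
  have hNW := hWb.trans hN
  have hWp := hWpos (64 * k)
  obtain ⟨n, hn⟩ : ∃ n, n = N / 16 := ⟨_, rfl⟩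
  obtain ⟨nn, hnn⟩ : ∃ nn, nn = n / 2 := ⟨_, rfl⟩
  have hn1 : N ≤ 64 * nn := by omega
  obtain ⟨K, r, w, hK1, hK4, hw, hH⟩ := hW (64 * k) nn (by omega)
  have h5 := restr_hardD (N := N) (by omega) (srcX n nn K) (cstX n K r w) (hard N) _
    (hard_special hn hK1 (by omega) (by omega) (by omega)) (hardD_of_hardC hH)
  have hWr : (0 : ℝ) < W (64 * k) := by exact_mod_cast hWp
  have h1 : (N : ℝ) ≤ 64 * (nn : ℝ) := by exact_mod_cast hn1
  have h2 : 64 * (W (64 * k) : ℝ) ≤ 2 ^ ((A₀ + 6) * k ^ 3) := by exact_mod_cast hWb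
  clear hWb hN hNW
  have h3 : (N : ℝ) / 2 ^ ((A₀ + 6) * k ^ 3) ≤ 1 / (W (64 * k) : ℝ) * (nn : ℝ) := by
    rw [one_div_mul_eq_div, div_le_div_iff₀ (by positivity) hWr]
    calc (N : ℝ) * W (64 * k) ≤ 64 * (nn : ℝ) * W (64 * k) :=
          mul_le_mul_of_nonneg_right h1 hWr.le
      _ = (nn : ℝ) * (64 * W (64 * k)) := by ring
      _ ≤ _ := mul_le_mul_of_nonneg_left h2 (Nat.cast_nonneg _)
  refine hardD_mono ?_ ?_ ?_ h5
  · calc k * N ≤ k * (64 * nn) := Nat.mul_le_mul_left _ hn1
      _ = 64 * k * nn := by ring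
  · exact Real.rpow_le_rpow_of_exponent_le (by norm_num) h3
  · exact Real.rpow_le_rpow_of_exponent_le (by norm_num) (neg_le_neg h3)

end Pool.Agent.L0h58.HX
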