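import Pool.Agent.L0h37.HN.Conc
import Pool.Agent.L0h37.HN.SELX
import Pool.Agent.L0h58.HX.Res
import Pool.Agent.L0h75.HX.TOE
import Pool.Agent.L0h85.HN.MGF
import Pool.Agent.L0h91.HX.STR
import Pool.Agent.LLead.LT.Cnt
import Pool.Agent.LLead.LT.Rec

/-!
# The explicit function: all parts together
-/

set_option autoImplicit false

namespace Pool.Agent.L0h58.HX

open Finset Polynomial Pool.Agent.L0h32.LT Pool.Agent.L0h32.LT2

theorem hard_small {N : ℕ} (hN : N < 16) : hard N = fun _ => false := by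
  funext y
  unfold hard
  apply decide_eq_false
  rw [not_not]
  have h : N / 16 = 0 := Nat.div_eq_of_lt hN
  rw [h]
  unfold vl tgt
  rw [sum_range_zero]
  show (0 : (ZMod 2)[X]) * 0 + 0 * 0 + 0 * 0 - 0 = 0
  ring

/-- The upper bound. -/
theorem upper {N : ℕ} (hN : 1 ≤ N) : ∃ ρ, 2 ^ ρ ≤ N ∧ OneP N ρ (N ^ 15) (hard N) := by
  refine ⟨Nat.log 2 N, Nat.pow_log_le_self 2 (by omega), ?_⟩
  rcases lt_or_ge N 16 with h | h
  · rw [hard_small h]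
    exact oneP_false _ _ _ (Nat.one_le_pow _ _ hN)
  · exact Pool.Agent.L0h91.HX.t_STR N h

/-- The lower bound. -/
theorem lower : ∃ A : ℕ, ∀ k N : ℕ, 1 ≤ k → 2 ^ (A * k ^ 3) ≤ N →
    HardD N (k * N) (2 ^ ((N : ℝ) / 2 ^ (A * k ^ 3))) (2 ^ (-((N : ℝ) / 2 ^ (A * k ^ 3))))
      (hard N) :=
  all4 (Pool.Agent.L0h37.HN.t_CON Pool.Agent.L0h85.HN.t_MGF) Pool.Agent.L0h37.HN.t_SELX
    Pool.Agent.LLead.LT.t_REC Pool.Agent.LLead.LT.t_CNT Pool.Agent.L0h75.HX.t_TOE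

end Pool.Agent.L0h58.HX
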