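import Pool.Agent.L0h58.HX.Stm
import Pool.Agent.L0h58.HM.Num3

/-!
# Numbers for the explicit function
-/

set_option autoImplicit false

namespace Pool.Agent.L0h58.HX

open Finset Pool.Agent.L0h32.LT Pool.Agent.L0h32.LT2 Pool.Agent.L0h58.HN Pool.Agent.L0h58.HM

theorem final_num3 {n D t K r R b e E L s W : ℕ} (hD1 : 1 ≤ D) (ht : 1 ≤ t) (hn0 : 0 < n)
    (hn : 16384 * D * t * (L + 1) ≤ n) (hK2 : n < 2048 * D * t * (K + 1)) (hs : 8 * s ≤ K)
    (hr3 : r ≤ R + 1) (hW : 16384 * D * t * (R + 3) ≤ W)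
    (hb1 : 65536 * D * t ≤ 2 ^ b) (hb2 : 262144 * b * t ≤ E) (he2 : E * D * e ≤ 16 * n)
    (hcore : (K : ℝ) ≤ L + s + (r + 2) * (1 / W * n) + b * e + 4 * n / 2 ^ b) : False := by
  have hDr : (0 : ℝ) < D := by exact_mod_cast hD1
  have htr : (0 : ℝ) < t := by exact_mod_cast ht
  have hnr : (0 : ℝ) < n := by exact_mod_cast hn0
  obtain ⟨u, hu⟩ : ∃ u : ℝ, u = (n : ℝ) / (16384 * D * t) := ⟨_, rfl⟩
  have hu0 : 0 < u := by
    rw [hu]
    positivity
  have hu1 : (L : ℝ) + 1 ≤ u := by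
    rw [hu, le_div_iff₀ (by positivity)]
    have : ((16384 * D * t * (L + 1) : ℕ) : ℝ) ≤ n := by exact_mod_cast hn
    push_cast at this
    linarith
  have hu2 : 8 * u < K + 1 := by
    have h1 : (n : ℝ) < 2048 * D * t * (K + 1) := by exact_mod_cast hK2
    rw [hu, ← mul_div_assoc, div_lt_iff₀ (by positivity)]
    linarith
  have hu3 : ((r : ℝ) + 2) * (1 / W * n) ≤ u := by
    have h1 : (r : ℝ) + 2 ≤ R + 3 := by
      have : ((r : ℕ) : ℝ) ≤ ((R + 1 : ℕ) : ℝ) := by exact_mod_cast hr3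
      push_cast at this
      linarith
    have h2 : ((16384 * D * t * (R + 3) : ℕ) : ℝ) ≤ W := by exact_mod_cast hW
    push_cast at h2
    have h3 : (0 : ℝ) < 16384 * D * t * (R + 3) := by positivity
    have h4 : (1 : ℝ) / W ≤ 1 / (16384 * D * t * (R + 3)) := one_div_le_one_div_of_le h3 h2
    calc ((r : ℝ) + 2) * (1 / W * n) ≤ ((R : ℝ) + 3) * (1 / (16384 * D * t * (R + 3)) * n) := by
          apply mul_le_mul h1 (mul_le_mul_of_nonneg_right h4 hnr.le) (by positivity)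
            (by positivity)
      _ = u := by
        rw [hu]
        field_simp
  have hu4 : (b : ℝ) * e ≤ u := by
    have h1 : ((262144 * b * t * (D * e) : ℕ) : ℝ) ≤ ((16 * n : ℕ) : ℝ) := by
      have : 262144 * b * t * (D * e) ≤ 16 * n := by
        calc 262144 * b * t * (D * e) ≤ E * (D * e) := Nat.mul_le_mul_right _ hb2
          _ = E * D * e := by ring
          _ ≤ 16 * n := he2
      exact_mod_cast this
    push_cast at h1
    rw [hu, le_div_iff₀ (by positivity)]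
    linarith
  have hu5 : 4 * (n : ℝ) / 2 ^ b ≤ u := by
    have h1 : (65536 : ℝ) * D * t ≤ 2 ^ b := by exact_mod_cast hb1
    calc 4 * (n : ℝ) / 2 ^ b ≤ 4 * n / (65536 * D * t) := by
          apply div_le_div_of_nonneg_left (by positivity) (by positivity) h1
      _ = u := by
        rw [hu, div_eq_div_iff (by positivity) (by positivity)]
        ring
  have hu6 : 8 * (s : ℝ) ≤ K := by exact_mod_cast hs
  linarith

/-- The parameters are bounded by a power of `2 ^ (k ^ 3)`. -/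
theorem par5 {J : ℕ} (hJ : 2 ≤ J) : ∃ y : ℕ,
    262144 * ((2 * dx J y + 32) * (4 * dx J y + 32)) ≤ 2 ^ y ∧ dx J y ≤ 688 * J ^ 3 := by
  obtain ⟨a, ha1, ha2⟩ : ∃ a : ℕ, J ≤ 2 ^ a ∧ 2 ^ a < 2 * J := by
    have hex : ∃ n : ℕ, J ≤ 2 ^ n := ⟨J, Nat.lt_two_pow_self.le⟩
    refine ⟨Nat.find hex, Nat.find_spec hex, ?_⟩
    have h2 : Nat.find hex ≠ 0 := by
      intro h0
      have h1 := Nat.find_spec hex
      rw [h0, pow_zero] at h1
      omega
    obtain ⟨j, hj⟩ := Nat.exists_eq_succ_of_ne_zero h2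
    have h3 := Nat.find_min hex (m := j) (by omega)
    rw [hj, Nat.succ_eq_add_one, pow_succ]
    omega
  obtain ⟨b, hb⟩ : ∃ b : ℕ, b = 2 ^ a := ⟨_, rfl⟩
  rw [← hb] at ha1 ha2
  have hab : a ≤ b := by rw [hb]; exact Nat.lt_two_pow_self.le
  have hl : lam J (8 * a + 60) ≤ 42 * b := by unfold lam; omega
  have hJb : J ^ 2 ≤ b ^ 2 := Nat.pow_le_pow_left ha1 2
  have h1 : lam J (8 * a + 60) * J ^ 2 ≤ 42 * b * b ^ 2 := Nat.mul_le_mul hl hJb
  have hb2 : 2 ≤ b := by omega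
  have hb3 : 4 * b ≤ b ^ 3 := by
    have : b ^ 3 = b * b * b := by ring
    rw [this]
    have h4 : 2 * 2 ≤ b * b := Nat.mul_le_mul hb2 hb2
    nlinarith
  have h5 : dx J (8 * a + 60) ≤ 86 * b ^ 3 := by
    unfold dx
    have e1 : 2 * lam J (8 * a + 60) * J ^ 2 = 2 * (lam J (8 * a + 60) * J ^ 2) := by ring
    have e2 : 42 * b * b ^ 2 = 42 * b ^ 3 := by ring
    rw [e1]
    rw [e2] at h1
    omega
  refine ⟨8 * a + 60, ?_, ?_⟩
  · calc 262144 * ((2 * dx J (8 * a + 60) + 32) * (4 * dx J (8 * a + 60) + 32)) ≤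
        262144 * ((176 * b ^ 3) * (348 * b ^ 3)) :=
          Nat.mul_le_mul_left _ (Nat.mul_le_mul (by omega) (by omega))
      _ = 16055795712 * b ^ 6 := by ring
      _ ≤ 1152921504606846976 * b ^ 8 := by
        apply Nat.mul_le_mul (by norm_num)
        exact Nat.pow_le_pow_right (by omega) (by norm_num)
      _ = 2 ^ (8 * a + 60) := by
        rw [hb, ← pow_mul, pow_add]
        have : (2 : ℕ) ^ 60 = 1152921504606846976 := by norm_num
        rw [this, Nat.mul_comm a 8]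
        ring
  · have h6 : b ^ 3 ≤ (2 * J) ^ 3 := Nat.pow_le_pow_left ha2.le 3
    have h7 : (2 * J) ^ 3 = 8 * J ^ 3 := by ring
    omega

/-- The size of `W`. -/
theorem size_X {k k' y d D E C1 R L t W : ℕ} (hk' : k' = k + 2) (hd : d = dx (2 * k') y)
    (hd2 : d ≤ 688 * (2 * k') ^ 3) (hD : D = 2 ^ d) (hE : E = 2 ^ y)
    (hC1 : C1 = 32 * k' * E ^ 2 * D ^ 2) (hR : R = (k + 1) * (2 * C1))
    (hL : L = 32 * k' ^ 2 * (d + 1)) (ht : t = 4 * d + 32)
    (hW : W = 16384 * D * t * ((R + 3) * (L + 1) * (8 * (t + 1)))) :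
    W ≤ 2 ^ (131072 * (k + 2) ^ 3) ∧ C1 ≤ W ∧ 16384 * D * t * (L + 1) ≤ W ∧
      16384 * D * t * (R + 3) ≤ W ∧ 2048 * D * t * (64 * (t + 1)) ≤ W := by
  have hdd : d = 2 * (lam (2 * k') y * (2 * k') ^ 2) + 2 * (2 * k') + 4 := by
    rw [hd]
    unfold dx
    ring
  have hlam : lam (2 * k') y = 2 * (2 * k') + y + 3 := rfl
  obtain ⟨l, hl⟩ : ∃ l, l = lam (2 * k') y := ⟨_, rfl⟩
  rw [← hl] at hdd hlam
  have hlJ : 16 * l ≤ l * (2 * k') ^ 2 := by
    have h1 : 16 ≤ (2 * k') ^ 2 := by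
      have : 4 ≤ 2 * k' := by omega
      calc 16 = 4 ^ 2 := by norm_num
        _ ≤ (2 * k') ^ 2 := Nat.pow_le_pow_left this 2
    calc 16 * l = l * 16 := Nat.mul_comm _ _
      _ ≤ _ := Nat.mul_le_mul_left _ h1
  have hyd : y ≤ d := by omega
  have hkd : 2 * k' + 4 ≤ d := by omega
  have hdD : d < D := by
    rw [hD]
    exact Nat.lt_two_pow_self
  have hED : E ≤ D := by
    rw [hE, hD]
    exact Nat.pow_le_pow_right (by norm_num) hyd
  have hD1 : 1 ≤ D := by omega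
  have b1 : C1 ≤ 32 * D ^ 5 := by
    rw [hC1]
    calc 32 * k' * E ^ 2 * D ^ 2 ≤ 32 * D * D ^ 2 * D ^ 2 :=
          Nat.mul_le_mul_right _ (Nat.mul_le_mul (Nat.mul_le_mul_left _ (by omega))
            (Nat.pow_le_pow_left hED 2))
      _ = 32 * D ^ 5 := by ring
  have hD6 : 1 ≤ D ^ 6 := Nat.one_le_pow _ _ hD1
  have hD3 : D ≤ D ^ 3 := Nat.le_self_pow (by norm_num) D
  have b2 : R + 3 ≤ 67 * D ^ 6 := by
    have h1 : R ≤ 64 * D ^ 6 := by
      rw [hR]
      calc (k + 1) * (2 * C1) ≤ D * (2 * (32 * D ^ 5)) :=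
            Nat.mul_le_mul (by omega) (Nat.mul_le_mul_left _ b1)
        _ = 64 * D ^ 6 := by ring
    omega
  have b3 : L + 1 ≤ 33 * D ^ 3 := by
    have h1 : L ≤ 32 * D ^ 3 := by
      rw [hL]
      calc 32 * k' ^ 2 * (d + 1) ≤ 32 * D ^ 2 * D :=
            Nat.mul_le_mul (Nat.mul_le_mul_left _ (Nat.pow_le_pow_left (by omega) 2)) (by omega)
        _ = 32 * D ^ 3 := by ring
    omega
  have hC1R : C1 ≤ R + 3 := by
    rw [hR]
    calc C1 = 1 * C1 := (Nat.one_mul _).symm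
      _ ≤ (k + 1) * (2 * C1) := Nat.mul_le_mul (by omega) (by omega)
      _ ≤ _ := Nat.le_add_right _ _
  have ht1 : t ≤ 36 * D := by omega
  have hDt : 1 ≤ 16384 * D * t := by
    have : 0 < t := by omega
    have : 0 < 16384 * D * t := by positivity
    exact this
  refine ⟨?_, ?_, ?_, ?_, ?_⟩
  · have b5 : W ≤ 2 ^ 42 * D ^ 12 := by
      rw [hW]
      calc 16384 * D * t * ((R + 3) * (L + 1) * (8 * (t + 1))) ≤
          16384 * D * (36 * D) * ((67 * D ^ 6) * (33 * D ^ 3) * (8 * (37 * D))) :=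
            Nat.mul_le_mul (Nat.mul_le_mul_left _ ht1) (Nat.mul_le_mul (Nat.mul_le_mul b2 b3)
              (Nat.mul_le_mul_left _ (by omega)))
        _ = 386013855744 * D ^ 12 := by ring
        _ ≤ 2 ^ 42 * D ^ 12 := Nat.mul_le_mul_right _ (by norm_num)
    refine b5.trans ?_
    have h1 : (2 : ℕ) ^ 42 * D ^ 12 = 2 ^ (42 + 12 * d) := by
      rw [hD, ← pow_mul, pow_add]
      congr 2
      ring
    rw [h1]
    apply Nat.pow_le_pow_right (by norm_num)
    have h2 : (2 * k') ^ 3 = 8 * (k + 2) ^ 3 := by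
      rw [hk']
      ring
    have h3 : 1 ≤ (k + 2) ^ 3 := Nat.one_le_pow _ _ (by omega)
    omega
  · rw [hW]
    calc C1 = 1 * (C1 * 1 * 1) := by ring
      _ ≤ 16384 * D * t * ((R + 3) * (L + 1) * (8 * (t + 1))) :=
        Nat.mul_le_mul hDt (Nat.mul_le_mul (Nat.mul_le_mul hC1R (by omega)) (by omega))
  · rw [hW]
    apply Nat.mul_le_mul_left
    calc L + 1 = 1 * (L + 1) * 1 := by ring
      _ ≤ (R + 3) * (L + 1) * (8 * (t + 1)) :=
        Nat.mul_le_mul (Nat.mul_le_mul_right _ (by omega)) (by omega)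
  · rw [hW]
    apply Nat.mul_le_mul_left
    calc R + 3 = (R + 3) * 1 * 1 := by ring
      _ ≤ (R + 3) * (L + 1) * (8 * (t + 1)) :=
        Nat.mul_le_mul (Nat.mul_le_mul_left _ (by omega)) (by omega)
  · rw [hW]
    calc 2048 * D * t * (64 * (t + 1)) = 16384 * D * t * (1 * 1 * (8 * (t + 1))) := by ring
      _ ≤ 16384 * D * t * ((R + 3) * (L + 1) * (8 * (t + 1))) :=
        Nat.mul_le_mul_left _ (Nat.mul_le_mul_right _ (Nat.mul_le_mul (by omega) (by omega)))

/-- The conditions for the Hankel matrix. -/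
theorem toe_cond {n m d t T K m' : ℕ} (ht : t = 4 * d + 32) (hT : T = 64 * t)
    (hn : n < 2 * 2 ^ d * (m + 1)) (hK : 16 * T * K ≤ m) (hK1 : 64 * (t + 1) ≤ K)
    (hm' : m' = m / T) :
    (t - 1) * (6 * K / T + 1) ≤ K / 8 ∧ T * m' ≤ m ∧
      n.choose m' * 2 ^ (t * (6 * K)) < 2 ^ (t * m') := by
  have hT0 : 0 < T := by omega
  have hm1 : T * m' ≤ m := by
    rw [hm']
    exact Nat.mul_div_le _ _
  have hm2 : m < T * (m' + 1) := by
    rw [hm']
    exact Nat.lt_mul_div_succ _ hT0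
  refine ⟨?_, hm1, ?_⟩
  · have h1 : T * (6 * K / T) ≤ 6 * K := Nat.mul_div_le _ _
    have h2 : 64 * (t * (6 * K / T)) ≤ 6 * K := by
      calc 64 * (t * (6 * K / T)) = T * (6 * K / T) := by
            rw [hT]
            ring
        _ ≤ 6 * K := h1
    have h3 : (t - 1) * (6 * K / T + 1) ≤ t * (6 * K / T) + t := by
      calc (t - 1) * (6 * K / T + 1) ≤ t * (6 * K / T + 1) := Nat.mul_le_mul_right _ (by omega)
        _ = _ := by ring
    omega
  · have h0 : 16 * K ≤ m' := by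
      rw [hm', Nat.le_div_iff_mul_le hT0]
      calc 16 * K * T = 16 * T * K := by ring
        _ ≤ m := hK
    have hTd : T ≤ 2 ^ (d + 12) := by
      have h1 : d + 1 ≤ 2 ^ d := Nat.lt_two_pow_self
      rw [pow_add]
      have h2 : (2 : ℕ) ^ 12 = 4096 := by norm_num
      rw [h2]
      omega
    have h1 : n.choose m' ≤ 2 ^ ((2 * d + 14) * m' + 2 * (m' + 1)) := by
      apply choose_bd2
      have h2 : m + 1 ≤ T * (m' + 1) := hm2
      calc n ≤ 2 * 2 ^ d * (m + 1) := hn.le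
        _ ≤ 2 * 2 ^ d * (2 ^ (d + 12) * (m' + 1)) :=
          Nat.mul_le_mul_left _ (h2.trans (Nat.mul_le_mul_right _ hTd))
        _ = 2 ^ (2 * d + 13) * (m' + 1) := by
          have : (2 : ℕ) ^ (2 * d + 13) = 2 * 2 ^ d * 2 ^ (d + 12) := by
            rw [← pow_succ', ← pow_add]
            congr 1
            ring
          rw [this]
          ring
        _ ≤ 2 ^ (2 * d + 14) * (m' + 1) :=
          Nat.mul_le_mul_right _ (Nat.pow_le_pow_right (by norm_num) (by omega))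
    calc n.choose m' * 2 ^ (t * (6 * K)) ≤
        2 ^ ((2 * d + 14) * m' + 2 * (m' + 1)) * 2 ^ (t * (6 * K)) := Nat.mul_le_mul_right _ h1
      _ = 2 ^ ((2 * d + 14) * m' + 2 * (m' + 1) + t * (6 * K)) := (pow_add _ _ _).symm
      _ < 2 ^ (t * m') := by
        apply Nat.pow_lt_pow_right (by norm_num)
        have e1 : t * m' = 4 * (d * m') + 32 * m' := by
          rw [ht]
          ring
        have e2 : (2 * d + 14) * m' = 2 * (d * m') + 14 * m' := by ring
        have e3 : t * (6 * K) = 24 * (d * K) + 192 * K := by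
          rw [ht]
          ring
        have e4 : 16 * (d * K) ≤ d * m' := by
          calc 16 * (d * K) = d * (16 * K) := by ring
            _ ≤ d * m' := Nat.mul_le_mul_left _ h0
        rw [e1, e2, e3]
        omega

end Pool.Agent.L0h58.HX
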