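import Pool.Agent.L0h32.LT2.CoComb

/-!
# An explicit function: statements of the parts
-/

set_option autoImplicit false

namespace Pool.Agent.L0h58.HX

open Finset Polynomial Pool.Agent.L0h32.LT

/-! ### Hankel matrices -/

/-- A part of a Hankel matrix: the entry in the row `i` and the column `b` is `r (i + φ b)`. -/
def hank {n : ℕ} {ι : Type} (r : ℕ → ZMod 2) (φ : ι → ℕ) (i : Fin n) (b : ι) : ZMod 2 :=
  r (i + φ b)

/-- **TOE.** Large sets of rows of a random Hankel matrix have almost full rank. -/
def S_TOE : Prop :=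
  ∀ (n m m' N s t T : ℕ) (ι : Type) (_ : Fintype ι) (φ : ι → ℕ), Function.Injective φ →
    (∀ b, φ b < N) → 1 ≤ t → 1 ≤ T → (t - 1) * (N / T + 1) ≤ s → T * m' ≤ m →
    n.choose m' * 2 ^ (t * N) < 2 ^ (t * m') →
    ∃ r : ℕ → ZMod 2, ∀ A : Finset (Fin n), m ≤ A.card →
      Fintype.card ι ≤
        Module.finrank (ZMod 2) (Submodule.span (ZMod 2) ((hank r φ : Fin n → ι → ZMod 2) '' A)) + s

/-! ### The function -/

/-- The bits of the input. -/
def bit {N : ℕ} (y : Fin N → Bool) (j : ℕ) : Bool := if h : j < N then y ⟨j, h⟩ else false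

section

variable {R : Type} [CommRing R] (z : R) (n : ℕ) (b : ℕ → Bool)

/-- A bit as an element of `R`. -/
def bv (a : Bool) : R := if a then 1 else 0

/-- The first `n` bits are the coefficients of a polynomial. -/
def pe : R := ∑ i ∈ range n, bv (b i) * z ^ i

/-- The windows. -/
def win (c : ℕ) : ℕ → R
  | 0 => 0
  | i + 1 => z * win c i + bv (b (n + 14 * i + c)) + bv (b (n + 14 * i + 6 + c)) * pe z n b

/-- The sums of the windows. -/
def acc (c : ℕ) : ℕ → R
  | 0 => 0
  | i + 1 => acc c i + bv (b (n + 14 * i + 12)) * win z n b c (i + 1)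

/-- The target. -/
def tgt : R := ∑ i ∈ range n, bv (b (n + 14 * i + 13)) * z ^ i

/-- The value of the identity. -/
def vl : R :=
  acc z n b 0 n * acc z n b 3 n + acc z n b 1 n * acc z n b 4 n + acc z n b 2 n * acc z n b 5 n -
    tgt z n b

end

open Classical in
/-- The explicit function. -/
noncomputable def hard (N : ℕ) (y : Fin N → Bool) : Bool :=
  decide (vl (X : (ZMod 2)[X]) (N / 16) (bit y) ≠ 0)

/-- **STR.** The function is computed in one pass, by evaluating the polynomials at a random point
of a field with `2 ^ (log N)` elements: the state is the point, `pe`, six windows, six sums and the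
target. The degree is at most `4 (N / 16)`. -/
def S_STR : Prop := ∀ N : ℕ, 16 ≤ N → OneP N (Nat.log 2 N) (N ^ 15) (hard N)

end Pool.Agent.L0h58.HX
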